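import Pool.Agent.Helper35.PI.St3

/-! # Project PI, module CZ: Codazzi and the rank one argument -/

set_option autoImplicit false

namespace Helper61.PI

open Helper35.PI
open scoped ContDiff Topology
open Filter Set

/-! ### Calculus -/

section Calc

variable {E F : Type*} [NormedAddCommGroup E] [NormedSpace ℝ E] [NormedAddCommGroup F]
  [NormedSpace ℝ F]

theorem cz_snd {f : E → F} {x : E} (hf : ContDiffAt ℝ 2 f x) (u w : E) :
    fderiv ℝ (fun y => fderiv ℝ f y w) x u = fderiv ℝ (fderiv ℝ f) x u w := by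
  have h1 : ContDiffAt ℝ 1 (fderiv ℝ f) x := hf.fderiv_right (by norm_num)
  have h2 : DifferentiableAt ℝ (fderiv ℝ f) x := h1.differentiableAt (by norm_num)
  rw [fderiv_clm_apply h2 (differentiableAt_const w)]
  simp

theorem cz_sym {f : E → F} {x : E} (hf : ContDiffAt ℝ 2 f x) (u w : E) :
    fderiv ℝ (fun y => fderiv ℝ f y w) x u = fderiv ℝ (fun y => fderiv ℝ f y u) x w := by
  rw [cz_snd hf, cz_snd hf]
  exact hf.isSymmSndFDerivAt (by simp) u w

/-- product of a continuous function and a differentiable function vanishing at the point -/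
theorem cz_mul {c a : E → ℝ} {x : E} {a' : E →L[ℝ] ℝ} (hc : ContinuousAt c x)
    (ha : HasFDerivAt a a' x) (h0 : a x = 0) : HasFDerivAt (fun y => c y * a y) (c x • a') x := by
  rw [hasFDerivAt_iff_isLittleO] at ha ⊢
  simp only [h0, mul_zero, sub_zero] at ha ⊢
  have h1 : (fun y => c y) =O[𝓝 x] (fun _ => (1 : ℝ)) := hc.isBigO_one ℝ
  have h2 : (fun y => c y * (a y - a' (y - x))) =o[𝓝 x] (fun y => (1 : ℝ) * ‖y - x‖) :=
    h1.mul_isLittleO ha.norm_right
  have h3 : (fun y => c y - c x) =o[𝓝 x] (fun _ => (1 : ℝ)) := by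
    rw [Asymptotics.isLittleO_one_iff]
    have := hc.tendsto.sub_const (c x)
    rwa [sub_self] at this
  have h4 : (fun y => (c y - c x) * a' (y - x)) =o[𝓝 x] (fun y => (1 : ℝ) * ‖y - x‖) :=
    h3.mul_isBigO (a'.isBigO_sub (𝓝 x) x).norm_right
  have h5 := h2.add h4
  simp only [one_mul] at h5
  have h6 := h5.of_norm_right
  refine h6.congr_left fun y => ?_
  simp only [smul_apply, smul_eq_mul]
  ring

end Calc

/-! ### Linear algebra -/

section LA

variable {n N : ℕ} {V : Type*} [AddCommGroup V] [Module ℝ V]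

theorem cz_inv {P : Matrix (Fin n) (Fin n) ℝ} (hP : IsUnit P.det) {R : Fin n → V}
    (h : ∀ a, ∑ i, P i a • R i = 0) (p : Fin n) : R p = 0 := by
  have h1 : ∀ i, ∑ a, P i a * P⁻¹ a p = if i = p then 1 else 0 := by
    intro i
    have h2 := congrFun (congrFun (Matrix.mul_nonsing_inv P hP) i) p
    rw [Matrix.mul_apply, Matrix.one_apply] at h2
    exact h2
  have h3 : R p = ∑ i, (if i = p then (1 : ℝ) else 0) • R i := by
    simp
  rw [h3]
  have h4 : ∑ i, (if i = p then (1 : ℝ) else 0) • R i = ∑ a, P⁻¹ a p • ∑ i, P i a • R i := by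
    simp_rw [← h1, Finset.sum_smul, Finset.smul_sum]
    rw [Finset.sum_comm]
    refine Finset.sum_congr rfl fun a _ => Finset.sum_congr rfl fun i _ => ?_
    rw [smul_smul, mul_comm]
  rw [h4]
  simp [h]

theorem cz_inv2 {P : Matrix (Fin n) (Fin n) ℝ} (hP : IsUnit P.det) {X : Fin n → Fin n → V}
    (h : ∀ a b, ∑ i, ∑ j, (P i a * P j b) • X i j = 0) (p q : Fin n) : X p q = 0 := by
  have h1 : ∀ b, ∑ j, P j b • X p j = 0 := by
    intro b
    refine cz_inv (R := fun i => ∑ j, P j b • X i j) hP ?_ p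
    intro a
    rw [← h a b]
    refine Finset.sum_congr rfl fun i _ => ?_
    rw [Finset.smul_sum]
    refine Finset.sum_congr rfl fun j _ => ?_
    rw [smul_smul]
  exact cz_inv hP h1 q

end LA

/-! ### At a point -/

section Point

variable {n N : ℕ} {f : EE n → EE N} {x : EE n}

theorem cz_perp (hNR : StNR) (hLI : LI f x) (i : Fin n) :
    (inner ℝ (mcv f x) (dv1 f x i) : ℝ) = 0 := by
  obtain ⟨h1, -⟩ := hNR n N f x hLI
  unfold mcv sff
  simp only [sum_inner, real_inner_smul_left, h1, mul_zero, Finset.sum_const_zero]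

theorem cz_sffH (hNR : StNR) (hLI : LI f x) (i j : Fin n) :
    (inner ℝ (sff f x i j) (mcv f x) : ℝ) = inner ℝ (dv2 f x i j) (mcv f x) := by
  obtain ⟨-, -, -, h4, -, -, h7, -⟩ := hNR n N f x hLI
  unfold sff
  rw [h7, h4 (mcv f x) (cz_perp hNR hLI)]

theorem cz_one (hFR : StFR) (hLI : LI f x) (hH : mcv f x ≠ 0)
    (hz : nsq f x * ‖mcv f x‖ ^ 2 = zsq f x) (i j : Fin n) :
    sff f x i j = ((inner ℝ (sff f x i j) (mcv f x) : ℝ) / ‖mcv f x‖ ^ 2) • mcv f x := by
  obtain ⟨-, -, P, -, hP, -, -, -, -, hPV⟩ := hFR n N f x hLI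
  have hY : 0 < ‖mcv f x‖ ^ 2 := by
    have := norm_pos_iff.2 hH
    positivity
  set Y : ℝ := ‖mcv f x‖ ^ 2 with hYd
  set z : Fin n → Fin n → ℝ := fun i j => inner ℝ (sff f x i j) (mcv f x) with hzd
  set X : Fin n → Fin n → EE N := fun i j => sff f x i j - (z i j / Y) • mcv f x with hX
  have h1 := hPV X X
  have h2 : ∀ i j k l, (inner ℝ (X i j) (X k l) : ℝ) =
      inner ℝ (sff f x i j) (sff f x k l) - z i j * z k l / Y := by
    intro i j k l
    simp only [hX]
    rw [inner_sub_left, inner_sub_right, inner_sub_right, real_inner_smul_left,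
      real_inner_smul_left, real_inner_smul_right, real_inner_smul_right,
      real_inner_self_eq_norm_sq, ← hYd, real_inner_comm (sff f x k l) (mcv f x)]
    have e1 : (inner ℝ (sff f x i j) (mcv f x) : ℝ) = z i j := rfl
    have e2 : (inner ℝ (sff f x k l) (mcv f x) : ℝ) = z k l := rfl
    rw [e1, e2]
    field_simp
    ring
  have h3 : ∑ i, ∑ j, ∑ k, ∑ l, (gram f x)⁻¹ i k * (gram f x)⁻¹ j l * (inner ℝ (X i j) (X k l) : ℝ)
      = nsq f x - zsq f x / Y := by
    simp_rw [h2]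
    unfold nsq zsq
    rw [Finset.sum_div, ← Finset.sum_sub_distrib]
    refine Finset.sum_congr rfl fun i _ => ?_
    rw [Finset.sum_div, ← Finset.sum_sub_distrib]
    refine Finset.sum_congr rfl fun j _ => ?_
    rw [Finset.sum_div, ← Finset.sum_sub_distrib]
    refine Finset.sum_congr rfl fun k _ => ?_
    rw [Finset.sum_div, ← Finset.sum_sub_distrib]
    refine Finset.sum_congr rfl fun l _ => ?_
    simp only [hzd]
    ring
  have h4 : nsq f x - zsq f x / Y = 0 := by
    rw [← hz]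
    field_simp
    ring
  rw [h3, h4] at h1
  have h5 : ∀ a b, ∑ i, ∑ j, (P i a * P j b) • X i j = 0 := by
    intro a b
    have h6 : ∀ a ∈ Finset.univ, 0 ≤ ∑ b, (inner ℝ (∑ i, ∑ j, (P i a * P j b) • X i j)
        (∑ i, ∑ j, (P i a * P j b) • X i j) : ℝ) := fun a _ =>
      Finset.sum_nonneg fun b _ => real_inner_self_nonneg
    have h7 := (Finset.sum_eq_zero_iff_of_nonneg h6).1 h1.symm a (Finset.mem_univ a)
    have h8 := (Finset.sum_eq_zero_iff_of_nonneg (fun b _ => real_inner_self_nonneg)).1 h7 b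
      (Finset.mem_univ b)
    exact inner_self_eq_zero.1 h8
  have h9 := cz_inv2 hP h5 i j
  simp only [hX] at h9
  rw [sub_eq_zero] at h9
  exact h9

/-- expansion of the second derivatives -/
theorem cz_exp (hFR : StFR) (hNR : StNR) (hLI : LI f x) (hH : mcv f x ≠ 0)
    (hz : nsq f x * ‖mcv f x‖ ^ 2 = zsq f x) (i j : Fin n) :
    dv2 f x i j = ((inner ℝ (dv2 f x i j) (mcv f x) : ℝ) / ‖mcv f x‖ ^ 2) • mcv f x +
      ∑ k, ∑ l, ((gram f x)⁻¹ k l * inner ℝ (dv2 f x i j) (dv1 f x k)) • dv1 f x l := by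
  have h1 := cz_one hFR hLI hH hz i j
  rw [cz_sffH hNR hLI] at h1
  rw [← h1]
  unfold sff nrm
  abel

theorem cz_ginv (hf : ContDiffAt ℝ 2 f x) (hdet : IsUnit (gram f x).det) (k l : Fin n) :
    ContinuousAt (fun y => (gram f y)⁻¹ k l) x := by
  have h0 : ContDiffAt ℝ 1 (fderiv ℝ f) x := hf.fderiv_right (by norm_num)
  have hd : ∀ i, ContinuousAt (fun y => dv1 f y i) x := fun i =>
    (h0.clm_apply contDiffAt_const).continuousAt
  have h1 : ContinuousAt (fun y => gram f y) x := by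
    refine continuousAt_pi.2 fun i => continuousAt_pi.2 fun j => ?_
    exact ContinuousAt.inner (𝕜 := ℝ) (hd i) (hd j)
  have h2 : ContinuousAt (fun A : Matrix (Fin n) (Fin n) ℝ => A⁻¹) (gram f x) := by
    refine continuousAt_matrix_inv _ ?_
    rw [Ring.inverse_eq_inv']
    exact continuousAt_inv₀ hdet.ne_zero
  have h3 : ContinuousAt (fun y => (gram f y)⁻¹) x := h2.comp (f := fun y => gram f y) h1
  exact (continuousAt_pi.1 (continuousAt_pi.1 h3 k)) l

/-- the derivative of the second derivatives modulo `span (f_k, H)` -/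
theorem cz_der (hFR : StFR) (hNR : StNR) (hf : ContDiffAt ℝ 3 f x)
    (hev : ∀ᶠ y in 𝓝 x, LI f y ∧ mcv f y ≠ 0 ∧ nsq f y * ‖mcv f y‖ ^ 2 = zsq f y)
    (hd : DifferentiableAt ℝ (mcv f) x) {v : EE N} (hv1 : ∀ k, (inner ℝ v (dv1 f x k) : ℝ) = 0)
    (hvH : (inner ℝ v (mcv f x) : ℝ) = 0) (i j m : Fin n) :
    (inner ℝ v (fderiv ℝ (fun y => dv2 f y i j) x (ee m)) : ℝ) =
      ((inner ℝ (dv2 f x i j) (mcv f x) : ℝ) / ‖mcv f x‖ ^ 2) *
        inner ℝ v (fderiv ℝ (mcv f) x (ee m)) := by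
  obtain ⟨hLI, hH, hz⟩ := hev.self_of_nhds
  have hv2 : ∀ i j, (inner ℝ v (dv2 f x i j) : ℝ) = 0 := by
    intro i j
    rw [cz_exp hFR hNR hLI hH hz i j, inner_add_right, real_inner_smul_right, hvH, mul_zero,
      zero_add, inner_sum]
    refine Finset.sum_eq_zero fun k _ => ?_
    rw [inner_sum]
    refine Finset.sum_eq_zero fun l _ => ?_
    rw [real_inner_smul_right, hv1, mul_zero]
  have hf2 : ContDiffAt ℝ 2 f x := hf.of_le (by norm_num)
  have h1 : ContDiffAt ℝ 2 (fderiv ℝ f) x := hf.fderiv_right (by norm_num)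
  have h1j : ∀ k, ContDiffAt ℝ 2 (fun y => dv1 f y k) x := fun k => h1.clm_apply contDiffAt_const
  have h2 : ∀ k l, ContDiffAt ℝ 1 (fun y => dv2 f y k l) x := fun k l => by
    have h3 : ContDiffAt ℝ 1 (fderiv ℝ (fun y => dv1 f y l)) x := (h1j l).fderiv_right (by norm_num)
    exact h3.clm_apply contDiffAt_const
  have hdet := (hFR n N f x hLI).2.1
  -- the functions
  set ℓ : EE N →L[ℝ] ℝ := innerSL ℝ v with hℓ
  have hℓa : ∀ w, ℓ w = inner ℝ v w := fun w => rfl
  have ha : HasFDerivAt (fun y => ℓ (mcv f y)) (ℓ.comp (fderiv ℝ (mcv f) x)) x :=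
    ℓ.hasFDerivAt.comp x hd.hasFDerivAt
  have hb : ∀ l, HasFDerivAt (fun y => ℓ (dv1 f y l)) (ℓ.comp (fderiv ℝ (fun y => dv1 f y l) x)) x :=
    fun l => ℓ.hasFDerivAt.comp x ((h1j l).differentiableAt (by norm_num)).hasFDerivAt
  have hφ : HasFDerivAt (fun y => ℓ (dv2 f y i j))
      (ℓ.comp (fderiv ℝ (fun y => dv2 f y i j) x)) x :=
    ℓ.hasFDerivAt.comp x ((h2 i j).differentiableAt (by norm_num)).hasFDerivAt
  have hc1 : ContinuousAt (fun y => (inner ℝ (dv2 f y i j) (mcv f y) : ℝ) / ‖mcv f y‖ ^ 2) x := by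
    refine ContinuousAt.div (ContinuousAt.inner (𝕜 := ℝ) (h2 i j).continuousAt hd.continuousAt)
      (hd.continuousAt.norm.pow 2) ?_
    have := norm_pos_iff.2 hH
    positivity
  have hc2 : ∀ k l, ContinuousAt (fun y => (gram f y)⁻¹ k l *
      (inner ℝ (dv2 f y i j) (dv1 f y k) : ℝ)) x := fun k l =>
    (cz_ginv hf2 hdet k l).mul (ContinuousAt.inner (𝕜 := ℝ) (h2 i j).continuousAt (h1j k).continuousAt)
  have k1 := cz_mul hc1 ha (by rw [hℓa]; exact hvH)
  have k2 := fun k l => cz_mul (hc2 k l) (hb l) (by rw [hℓa]; exact hv1 l)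
  have k3 := k1.add (HasFDerivAt.fun_sum (u := Finset.univ) fun k _ =>
    HasFDerivAt.fun_sum (u := Finset.univ) fun l _ => k2 k l)
  have he : (fun y => ℓ (dv2 f y i j)) =ᶠ[𝓝 x] ((fun y => (inner ℝ (dv2 f y i j) (mcv f y) : ℝ) /
      ‖mcv f y‖ ^ 2 * ℓ (mcv f y)) + fun y => ∑ k, ∑ l, (gram f y)⁻¹ k l *
      (inner ℝ (dv2 f y i j) (dv1 f y k) : ℝ) * ℓ (dv1 f y l)) := by
    filter_upwards [hev] with y hy
    rw [Pi.add_apply]
    conv_lhs => rw [cz_exp hFR hNR hy.1 hy.2.1 hy.2.2 i j]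
    rw [map_add, map_smul, map_sum, smul_eq_mul]
    congr 1
    refine Finset.sum_congr rfl fun k _ => ?_
    rw [map_sum]
    refine Finset.sum_congr rfl fun l _ => ?_
    rw [map_smul, smul_eq_mul]
  have k4 := (k3.congr_of_eventuallyEq he).unique hφ
  have k5 := congrArg (fun T : EE n →L[ℝ] ℝ => T (ee m)) k4
  simp only [add_apply, smul_apply, smul_eq_mul, ContinuousLinearMap.coe_comp, Function.comp_apply,
    FunLike.coe_sum, Finset.sum_apply] at k5
  have k6 : ∀ l, ℓ (fderiv ℝ (fun y => dv1 f y l) x (ee m)) = 0 := fun l => hv2 m l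
  simp only [k6, mul_zero, Finset.sum_const_zero, add_zero] at k5
  rw [hℓa, hℓa] at k5
  exact k5.symm

/-- the rank one case is impossible -/
theorem cz_rank1 (hFR : StFR) (hNR : StNR) (hLI : LI f x) (hH : mcv f x ≠ 0)
    (hz : nsq f x * ‖mcv f x‖ ^ 2 = zsq f x) (lam : ℝ) (d : Fin n → ℝ)
    (hh : ∀ i j, (inner ℝ (dv2 f x i j) (mcv f x) : ℝ) / ‖mcv f x‖ ^ 2 = lam * (d i * d j)) :
    nsq f x = ‖mcv f x‖ ^ 2 := by
  have hY : 0 < ‖mcv f x‖ ^ 2 := by
    have := norm_pos_iff.2 hH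
    positivity
  have h1 : ∀ i j, sff f x i j = (lam * (d i * d j)) • mcv f x := by
    intro i j
    have := cz_one hFR hLI hH hz i j
    rw [cz_sffH hNR hLI, hh] at this
    exact this
  set g : Matrix (Fin n) (Fin n) ℝ := (gram f x)⁻¹ with hg
  set S : ℝ := ∑ i, ∑ j, g i j * (lam * (d i * d j)) with hS
  have h2 : mcv f x = S • mcv f x := by
    conv_lhs => rw [mcv]
    rw [hS, Finset.sum_smul]
    refine Finset.sum_congr rfl fun i _ => ?_
    rw [Finset.sum_smul]
    refine Finset.sum_congr rfl fun j _ => ?_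
    rw [h1, smul_smul]
  have h3 : S = 1 := by
    have h4 : (S - 1) • mcv f x = 0 := by
      rw [sub_smul, one_smul, ← h2, sub_self]
    rcases smul_eq_zero.1 h4 with h5 | h5
    · linarith
    · exact absurd h5 hH
  have h4 : nsq f x = S * S * ‖mcv f x‖ ^ 2 := by
    have h5 : nsq f x = ∑ i, ∑ k, ∑ j, ∑ l, (g i k * (lam * (d i * d k))) *
        (g j l * (lam * (d j * d l))) * ‖mcv f x‖ ^ 2 := by
      unfold nsq
      refine Finset.sum_congr rfl fun i _ => ?_
      rw [Finset.sum_comm]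
      refine Finset.sum_congr rfl fun k _ => Finset.sum_congr rfl fun j _ =>
        Finset.sum_congr rfl fun l _ => ?_
      rw [h1, h1, real_inner_smul_left, real_inner_smul_right, real_inner_self_eq_norm_sq]
      ring
    rw [h5, hS, Finset.sum_mul, Finset.sum_mul]
    refine Finset.sum_congr rfl fun i _ => ?_
    rw [Finset.sum_mul, Finset.sum_mul]
    refine Finset.sum_congr rfl fun k _ => ?_
    rw [Finset.mul_sum, Finset.sum_mul]
    refine Finset.sum_congr rfl fun j _ => ?_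
    rw [Finset.mul_sum, Finset.sum_mul]
  rw [h4, h3]
  ring

end Point

theorem hCZ (hFR : StFR) (hNR : StNR) : StCZ := by
  intro n N f U hU hf hall x hx l
  obtain ⟨hLI, hH, hz, hlt⟩ := hall x hx
  have hfx : ContDiffAt ℝ 3 f x := hf.contDiffAt (hU.mem_nhds hx)
  have hev : ∀ᶠ y in 𝓝 x, LI f y ∧ mcv f y ≠ 0 ∧ nsq f y * ‖mcv f y‖ ^ 2 = zsq f y := by
    filter_upwards [hU.mem_nhds hx] with y hy
    obtain ⟨h1, h2, h3, -⟩ := hall y hy
    exact ⟨h1, h2, h3⟩
  set W : Submodule ℝ (EE N) := Submodule.span ℝ (range fun i => dv1 f x i) ⊔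
    Submodule.span ℝ {mcv f x} with hW
  have hW1 : ∀ k, dv1 f x k ∈ W := fun k =>
    Submodule.mem_sup_left (Submodule.subset_span ⟨k, rfl⟩)
  have hWH : mcv f x ∈ W := Submodule.mem_sup_right (Submodule.mem_span_singleton_self _)
  have hW2 : ∀ i j, dv2 f x i j ∈ W := by
    intro i j
    rw [cz_exp hFR hNR hLI hH hz i j]
    exact W.add_mem (W.smul_mem _ hWH) (W.sum_mem fun k _ => W.sum_mem fun l _ =>
      W.smul_mem _ (hW1 l))
  refine ⟨?_, hW2⟩
  by_cases hd : DifferentiableAt ℝ (mcv f) x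
  swap
  · rw [fderiv_zero_of_not_differentiableAt hd]
    exact W.zero_mem
  rw [← Submodule.orthogonal_orthogonal W, Submodule.mem_orthogonal]
  intro v hv
  rw [Submodule.mem_orthogonal] at hv
  have hv1 : ∀ k, (inner ℝ v (dv1 f x k) : ℝ) = 0 := fun k => by
    rw [real_inner_comm]
    exact hv _ (hW1 k)
  have hvH : (inner ℝ v (mcv f x) : ℝ) = 0 := by
    rw [real_inner_comm]
    exact hv _ hWH
  by_contra hne
  -- the Codazzi identity
  set h : Fin n → Fin n → ℝ := fun i j =>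
    (inner ℝ (dv2 f x i j) (mcv f x) : ℝ) / ‖mcv f x‖ ^ 2 with hh
  set D : Fin n → ℝ := fun m => inner ℝ v (fderiv ℝ (mcv f) x (ee m)) with hD
  have hDl : D l ≠ 0 := hne
  have hf2 : ContDiffAt ℝ 2 f x := hfx.of_le (by norm_num)
  have hfd : ContDiffAt ℝ 2 (fderiv ℝ f) x := hfx.fderiv_right (by norm_num)
  have hsymm : ∀ i j, h i j = h j i := by
    intro i j
    have h1 : dv2 f x i j = dv2 f x j i := cz_sym hf2 (ee i) (ee j)
    simp only [hh]
    rw [h1]
  have hcod : ∀ i j m, h i j * D m = h m j * D i := by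
    intro i j m
    have h1 := cz_der hFR hNR hfx hev hd hv1 hvH i j m
    have h2 := cz_der hFR hNR hfx hev hd hv1 hvH m j i
    have h3 : fderiv ℝ (fun y => dv2 f y i j) x (ee m) = fderiv ℝ (fun y => dv2 f y m j) x (ee i) := by
      have h4 : ContDiffAt ℝ 2 (fun y => fderiv ℝ f y (ee j)) x := hfd.clm_apply contDiffAt_const
      exact cz_sym h4 (ee m) (ee i)
    rw [h3] at h1
    exact h1.symm.trans h2
  have hlam : ∀ i j, h i j = (h l l / D l ^ 2) * (D i * D j) := by
    intro i j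
    have h1 : h i j * D l = h l j * D i := hcod i j l
    have h2 : h j l * D l = h l l * D j := hcod j l l
    rw [hsymm j l] at h2
    field_simp
    have h3 : h i j * D l ^ 2 = (h i j * D l) * D l := by ring
    rw [h3, h1]
    have h4 : h l j * D i * D l = (h l j * D l) * D i := by ring
    rw [h4, h2]
    ring
  have := cz_rank1 hFR hNR hLI hH hz (h l l / D l ^ 2) D hlam
  linarith

end Helper61.PI
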