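import Pool.Agent.Helper35.PI.St2

/-! # Project PI, module JA: jets, locality and linearity -/

set_option autoImplicit false

namespace Helper61.PI

open Helper35.PI
open scoped ContDiff Topology
open Filter

variable {n : ℕ} {V : Type} [NormedAddCommGroup V] [NormedSpace ℝ V] {z : EE n × ℝ}

theorem ja_loc {φ ψ : EE n × ℝ → V} (h : φ =ᶠ[𝓝 z] ψ) :
    (∀ k, jg φ z k = jg ψ z k) ∧ jt φ z = jt ψ z ∧
      (∀ i j, jgg φ z i j = jgg ψ z i j) ∧ jh φ z = jh ψ z := by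
  have h1 : ∀ k, jg φ z k = jg ψ z k := fun k => by
    unfold jg
    rw [h.fderiv_eq]
  have h2 : jt φ z = jt ψ z := by
    unfold jt
    rw [h.fderiv_eq]
  have h3 : ∀ i j, jgg φ z i j = jgg ψ z i j := fun i j => by
    have h4 : (fun z' => jg φ z' j) =ᶠ[𝓝 z] (fun z' => jg ψ z' j) := by
      filter_upwards [h.fderiv (𝕜 := ℝ)] with z' hz'
      unfold jg
      rw [hz']
    unfold jgg
    have h5 : ∀ {a b : EE n × ℝ → V}, a =ᶠ[𝓝 z] b → jg a z i = jg b z i := fun hab => by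
      unfold jg
      rw [hab.fderiv_eq]
    exact h5 h4
  refine ⟨h1, h2, h3, ?_⟩
  unfold jh
  rw [h2]
  simp_rw [h3]

theorem ja_dj {φ : EE n × ℝ → V} (h : ContDiffAt ℝ 2 φ z) (j : Fin n) :
    DifferentiableAt ℝ (fun z' => jg φ z' j) z := by
  have h1 : ContDiffAt ℝ 1 (fderiv ℝ φ) z := h.fderiv_right (by norm_num)
  have h2 : ContDiffAt ℝ 1 (fun z' => fderiv ℝ φ z' (ee j, 0)) z := h1.clm_apply contDiffAt_const
  exact h2.differentiableAt (by norm_num)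

theorem ja_d {φ : EE n × ℝ → V} (h : ContDiffAt ℝ 2 φ z) : DifferentiableAt ℝ φ z :=
  h.differentiableAt (by norm_num)

theorem ja_ev {φ : EE n × ℝ → V} (h : ContDiffAt ℝ 2 φ z) :
    ∀ᶠ z' in 𝓝 z, ContDiffAt ℝ 2 φ z' := h.eventually (by norm_num)

theorem ja_zero : (∀ k, jg (fun _ : EE n × ℝ => (0 : V)) z k = 0) ∧
    jh (fun _ : EE n × ℝ => (0 : V)) z = 0 := by
  have h1 : ∀ (c : V) z' k, jg (fun _ : EE n × ℝ => c) z' k = 0 := fun c z' k => by
    unfold jg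
    simp
  refine ⟨h1 0 z, ?_⟩
  unfold jh jt jgg
  simp [h1]

theorem ja_const (c : V) : (∀ k, jg (fun _ : EE n × ℝ => c) z k = 0) ∧
    jh (fun _ : EE n × ℝ => c) z = 0 := by
  have h1 : ∀ (c : V) z' k, jg (fun _ : EE n × ℝ => c) z' k = 0 := fun c z' k => by
    unfold jg
    simp
  refine ⟨h1 c z, ?_⟩
  unfold jh jt jgg
  simp [h1]

theorem ja_add {φ ψ : EE n × ℝ → V} (hφ : ContDiffAt ℝ 2 φ z) (hψ : ContDiffAt ℝ 2 ψ z) :
    (∀ k, jg (fun z => φ z + ψ z) z k = jg φ z k + jg ψ z k) ∧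
      jh (fun z => φ z + ψ z) z = jh φ z + jh ψ z := by
  have h0 : ∀ {a b : EE n × ℝ → V} {z' : EE n × ℝ}, DifferentiableAt ℝ a z' →
      DifferentiableAt ℝ b z' → ∀ v, fderiv ℝ (fun z => a z + b z) z' v =
        fderiv ℝ a z' v + fderiv ℝ b z' v := by
    intro a b z' ha hb v
    have := fderiv_add ha hb
    have h1 : fderiv ℝ (fun z => a z + b z) z' = fderiv ℝ a z' + fderiv ℝ b z' := this
    rw [h1]
    rfl
  have h1 : ∀ k, jg (fun z => φ z + ψ z) z k = jg φ z k + jg ψ z k := fun k =>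
    h0 (ja_d hφ) (ja_d hψ) _
  refine ⟨h1, ?_⟩
  have h2 : jt (fun z => φ z + ψ z) z = jt φ z + jt ψ z := h0 (ja_d hφ) (ja_d hψ) _
  have h3 : ∀ i j, jgg (fun z => φ z + ψ z) z i j = jgg φ z i j + jgg ψ z i j := by
    intro i j
    have h4 : (fun z' => jg (fun z => φ z + ψ z) z' j) =ᶠ[𝓝 z]
        (fun z' => jg φ z' j + jg ψ z' j) := by
      filter_upwards [ja_ev hφ, ja_ev hψ] with z' h5 h6
      exact h0 (ja_d h5) (ja_d h6) _
    have h5 : jgg (fun z => φ z + ψ z) z i j = jg (fun z' => jg φ z' j + jg ψ z' j) z i :=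
      (ja_loc h4).1 i
    rw [h5]
    exact h0 (ja_dj hφ j) (ja_dj hψ j) _
  unfold jh
  rw [h2]
  simp_rw [h3]
  rw [Finset.sum_add_distrib]
  abel

theorem ja_smul {φ : EE n × ℝ → V} (c : ℝ) (hφ : ContDiffAt ℝ 2 φ z) :
    (∀ k, jg (fun z => c • φ z) z k = c • jg φ z k) ∧
      jh (fun z => c • φ z) z = c • jh φ z := by
  have h0 : ∀ {a : EE n × ℝ → V} {z' : EE n × ℝ}, DifferentiableAt ℝ a z' →
      ∀ v, fderiv ℝ (fun z => c • a z) z' v = c • fderiv ℝ a z' v := by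
    intro a z' ha v
    have h1 : fderiv ℝ (fun z => c • a z) z' = c • fderiv ℝ a z' := by
      have := fderiv_const_smul ha c
      exact this
    rw [h1]
    rfl
  have h1 : ∀ k, jg (fun z => c • φ z) z k = c • jg φ z k := fun k => h0 (ja_d hφ) _
  refine ⟨h1, ?_⟩
  have h2 : jt (fun z => c • φ z) z = c • jt φ z := h0 (ja_d hφ) _
  have h3 : ∀ i j, jgg (fun z => c • φ z) z i j = c • jgg φ z i j := by
    intro i j
    have h4 : (fun z' => jg (fun z => c • φ z) z' j) =ᶠ[𝓝 z] (fun z' => c • jg φ z' j) := by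
      filter_upwards [ja_ev hφ] with z' h5
      exact h0 (ja_d h5) _
    have h5 : jgg (fun z => c • φ z) z i j = jg (fun z' => c • jg φ z' j) z i :=
      (ja_loc h4).1 i
    rw [h5]
    exact h0 (ja_dj hφ j) _
  unfold jh
  rw [h2]
  simp_rw [h3]
  rw [← Finset.smul_sum, smul_sub]

theorem ja_sub {φ ψ : EE n × ℝ → V} (hφ : ContDiffAt ℝ 2 φ z) (hψ : ContDiffAt ℝ 2 ψ z) :
    (∀ k, jg (fun z => φ z - ψ z) z k = jg φ z k - jg ψ z k) ∧
      jh (fun z => φ z - ψ z) z = jh φ z - jh ψ z := by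
  have e : (fun z => φ z - ψ z) = fun z => φ z + (-1 : ℝ) • ψ z := by
    funext z
    rw [neg_one_smul, sub_eq_add_neg]
  have h1 : ContDiffAt ℝ 2 (fun z => (-1 : ℝ) • ψ z) z := contDiffAt_const.smul hψ
  obtain ⟨h2, h3⟩ := ja_add hφ h1
  obtain ⟨h4, h5⟩ := ja_smul (-1 : ℝ) hψ
  rw [e]
  refine ⟨fun k => ?_, ?_⟩
  · rw [h2, h4, neg_one_smul, sub_eq_add_neg]
  · rw [h3, h5, neg_one_smul, sub_eq_add_neg]

theorem ja_sum {ι : Type} (s : Finset ι) (φ : ι → EE n × ℝ → V)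
    (h : ∀ i ∈ s, ContDiffAt ℝ 2 (φ i) z) :
    (∀ k, jg (fun z => ∑ i ∈ s, φ i z) z k = ∑ i ∈ s, jg (φ i) z k) ∧
      jh (fun z => ∑ i ∈ s, φ i z) z = ∑ i ∈ s, jh (φ i) z := by
  classical
  induction s using Finset.induction_on with
  | empty =>
    simp only [Finset.sum_empty]
    exact ja_zero
  | insert a s ha ih =>
    obtain ⟨h1, h2⟩ := ih (fun i hi => h i (Finset.mem_insert_of_mem hi))
    have h3 : ContDiffAt ℝ 2 (fun z => ∑ i ∈ s, φ i z) z :=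
      ContDiffAt.sum fun i hi => h i (Finset.mem_insert_of_mem hi)
    obtain ⟨h4, h5⟩ := ja_add (h a (Finset.mem_insert_self a s)) h3
    have e : (fun z => ∑ i ∈ insert a s, φ i z) = fun z => φ a z + ∑ i ∈ s, φ i z := by
      funext z
      rw [Finset.sum_insert ha]
    rw [e]
    refine ⟨fun k => ?_, ?_⟩
    · rw [h4, h1, Finset.sum_insert ha]
    · rw [h5, h2, Finset.sum_insert ha]

theorem hJA : StJA := by
  intro n V _ _ z
  refine ⟨fun φ ψ h => ja_loc h, fun c => ja_const c, fun φ ψ hφ hψ => ?_, fun φ c hφ => ja_smul c hφ,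
    fun m φ hφ => ja_sum _ _ fun i _ => hφ i⟩
  exact ⟨(ja_add hφ hψ).1, (ja_add hφ hψ).2, (ja_sub hφ hψ).1, (ja_sub hφ hψ).2⟩

end Helper61.PI
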