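import Pool.Agent.Helper35.PI.St4

/-! # Project PI, module NI: nothing comes in from infinity -/

set_option autoImplicit false

namespace Helper61.PI

open Helper35.PI
open scoped ContDiff Topology ENNReal Manifold
open MeasureTheory Set Filter

section NI

variable {n N : ℕ} {M : Type} [TopologicalSpace M] [ChartedSpace (EE n) M]

/-- the part of the chart over `O` -/
def Tn (n : ℕ) {M : Type} [TopologicalSpace M] [ChartedSpace (EE n) M] (p : M) (O : Set M) :
    Set (EE n) := (chartAt (EE n) p).target ∩ (chartAt (EE n) p).symm ⁻¹' O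

theorem sgm_nn (f : EE n → EE N) (y : EE n) : 0 ≤ sgm f y := Real.sqrt_nonneg _

theorem tn_open (p : M) {O : Set M} (hO : IsOpen O) : IsOpen (Tn n p O) :=
  (chartAt (EE n) p).symm.isOpen_inter_preimage hO

theorem ni_lam (F : M → ℝ → EE N) (c : ℕ → M) (χ : ℕ → M → ℝ) (t : ℝ) {O : Set M} (hO : IsOpen O)
    (g : M → ℝ) :
    Lam (n := n) F c χ t (indicator O fun q => ENNReal.ofReal (g q)) =
      ∑' i, ∫⁻ y in Tn n (c i) O, ENNReal.ofReal (χ i ((chartAt (EE n) (c i)).symm y)) *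
        ENNReal.ofReal (g ((chartAt (EE n) (c i)).symm y) * sgm (loc (n := n) F (c i) t) y) := by
  unfold Lam
  refine tsum_congr fun i => ?_
  have hT := (tn_open (n := n) (c i) hO).measurableSet
  have h1 : ∫⁻ y in (chartAt (EE n) (c i)).target,
      ENNReal.ofReal (χ i ((chartAt (EE n) (c i)).symm y)) *
        (indicator O fun q => ENNReal.ofReal (g q)) ((chartAt (EE n) (c i)).symm y) *
        ENNReal.ofReal (sgm (loc (n := n) F (c i) t) y) =
      ∫⁻ y in (chartAt (EE n) (c i)).target, (Tn n (c i) O).indicator (fun y =>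
        ENNReal.ofReal (χ i ((chartAt (EE n) (c i)).symm y)) *
        ENNReal.ofReal (g ((chartAt (EE n) (c i)).symm y) * sgm (loc (n := n) F (c i) t) y)) y := by
    refine setLIntegral_congr_fun (chartAt (EE n) (c i)).open_target.measurableSet fun y hy => ?_
    by_cases h : (chartAt (EE n) (c i)).symm y ∈ O
    · have h2 : y ∈ Tn n (c i) O := ⟨hy, h⟩
      rw [indicator_of_mem h, indicator_of_mem h2, ENNReal.ofReal_mul' (sgm_nn _ _), mul_assoc]
    · have h2 : y ∉ Tn n (c i) O := fun h3 => h h3.2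
      rw [indicator_of_notMem h, indicator_of_notMem h2, mul_zero, zero_mul]
  rw [h1, setLIntegral_indicator hT]
  have h2 : Tn n (c i) O ∩ (chartAt (EE n) (c i)).target = Tn n (c i) O :=
    inter_eq_left.2 fun y hy => hy.1
  rw [h2]

theorem ni_lam_mono (F : M → ℝ → EE N) (c : ℕ → M) (χ : ℕ → M → ℝ) (t : ℝ) {g g' : M → ℝ≥0∞}
    (h : ∀ q, g q ≤ g' q) : Lam (n := n) F c χ t g ≤ Lam (n := n) F c χ t g' := by
  unfold Lam
  refine ENNReal.tsum_le_tsum fun i => lintegral_mono fun y => ?_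
  exact mul_le_mul_left (mul_le_mul_right (h _) _) _

theorem ni_lam_mul (F : M → ℝ → EE N) (c : ℕ → M) (χ : ℕ → M → ℝ) (t : ℝ) {g : M → ℝ≥0∞}
    {a : ℝ≥0∞} (ha : a ≠ ⊤) :
    Lam (n := n) F c χ t (fun q => a * g q) = a * Lam (n := n) F c χ t g := by
  unfold Lam
  rw [← ENNReal.tsum_mul_left]
  refine tsum_congr fun i => ?_
  rw [← lintegral_const_mul' _ _ ha]
  refine lintegral_congr fun y => ?_
  ring

/-- the tube lemma on the frontier of the compact set -/
theorem ni_tube {F : M → ℝ → EE N}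
    (hF : ContinuousOn (fun z : M × ℝ => F z.1 z.2) (univ ×ˢ Iio 0)) {T₀ ρ : ℝ} (hT : T₀ < 0)
    {K : Set M} (hK : IsCompact K) (hb : ∀ q ∈ K, ρ < ‖F q T₀‖) :
    ∃ η > 0, T₀ + η < 0 ∧ ∀ q ∈ K, ∀ s, T₀ ≤ s → s ≤ T₀ + η → ρ < ‖F q s‖ := by
  have hopen : IsOpen ((univ ×ˢ Iio (0 : ℝ)) ∩ (fun z : M × ℝ => ‖F z.1 z.2‖) ⁻¹' Ioi ρ) :=
    hF.norm.isOpen_inter_preimage (isOpen_univ.prod isOpen_Iio) isOpen_Ioi
  obtain ⟨u, v, -, hv, hKu, hTv, huv⟩ := generalized_tube_lemma hK (isCompact_singleton (x := T₀))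
    hopen (by
      rintro ⟨q, s⟩ ⟨hq, hs⟩
      rw [mem_singleton_iff] at hs
      simp only at hs
      subst hs
      exact ⟨⟨mem_univ _, hT⟩, hb q hq⟩)
  have hv' : v ∈ 𝓝 T₀ := hv.mem_nhds (hTv (mem_singleton T₀))
  obtain ⟨e, he, hev⟩ := Metric.mem_nhds_iff.1 hv'
  refine ⟨min (e / 2) (-T₀ / 2), lt_min (by linarith) (by linarith), ?_, ?_⟩
  · have := min_le_right (e / 2) (-T₀ / 2)
    linarith
  · intro q hq s h1 h2
    have h3 := min_le_left (e / 2) (-T₀ / 2)
    have h4 : s ∈ v := hev (by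
      rw [Metric.mem_ball, Real.dist_eq, abs_of_nonneg (by linarith)]
      linarith)
    exact (huv (mk_mem_prod (hKu hq) h4)).2

end NI

theorem hNI (hV5 : StV5) (hV8 : StV8) (hV9 : StV9) (hV10 : StV10) (hV11 : StV11) (hI4 : StI4)
    (hV1 : StV1) (hI2 : StI2) (hI3 : StI3) : StNI := by
  intro n N hn M _ _ _ _ _ _ F hF hcpt harea T₀ R hT₀
  obtain ⟨hFc, hHc, -, -⟩ := hI4 n N M F hF
  -- constants
  set R' : ℝ := max R 0 with hR'
  have hR'0 : 0 ≤ R' := le_max_right _ _
  have hRR' : R ≤ R' := le_max_left _ _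
  set ρ : ℝ := R' + 2 with hρd
  have hρ : 0 < ρ := by linarith
  have hFt : ∀ t < 0, Continuous (fun q : M => F q t) := by
    intro t ht
    have h1 : ContinuousOn (fun q : M => F q t) univ :=
      hFc.comp (Continuous.prodMk continuous_id continuous_const).continuousOn
        (fun q _ => ⟨mem_univ _, ht⟩)
    exact continuousOn_univ.1 h1
  set K : Set M := {q | ‖F q T₀‖ ≤ ρ + 1} with hK
  have hKc : IsCompact K := hcpt T₀ (ρ + 1) hT₀
  have hKcl : IsClosed K := hKc.isClosed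
  have hfr : IsCompact (frontier K) := hKc.of_isClosed_subset isClosed_frontier
    hKcl.frontier_subset
  have hfr2 : ∀ q ∈ frontier K, ρ < ‖F q T₀‖ := by
    intro q hq
    have h1 := frontier_le_subset_eq (hFt T₀ hT₀).norm continuous_const hq
    have h2 : ‖F q T₀‖ = ρ + 1 := h1
    linarith
  obtain ⟨η₁, hη₁, hη₁0, htube⟩ := ni_tube hFc hT₀ hfr hfr2
  have hn0 : (0 : ℝ) < n := by exact_mod_cast hn
  set η : ℝ := min η₁ (1 / (2 * n)) with hη
  have hη0 : 0 < η := lt_min hη₁ (by positivity)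
  have hηle : η ≤ η₁ := min_le_left _ _
  have hη2 : 2 * n * η ≤ 1 := by
    have h1 : η ≤ 1 / (2 * n) := min_le_right _ _
    rw [le_div_iff₀ (by positivity)] at h1
    linarith
  refine ⟨K, hKc, η, hη0, ?_⟩
  intro t ht1 ht2 ht0 q₀ hq₀
  by_contra hq₀K
  set O : Set M := Kᶜ with hO
  have hOo : IsOpen O := hKcl.isOpen_compl
  -- compactness of the support at each time
  have hcs : ∀ s ∈ Icc T₀ t, s < 0 ∧
      IsCompact {q : M | q ∈ O ∧ 0 ≤ ρ ^ 2 - ‖F q s‖ ^ 2 - 2 * n * (s - T₀)} := by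
    intro s hs
    have hs0 : s < 0 := lt_of_le_of_lt hs.2 ht0
    refine ⟨hs0, ?_⟩
    have h1 : {q : M | q ∈ O ∧ 0 ≤ ρ ^ 2 - ‖F q s‖ ^ 2 - 2 * n * (s - T₀)} =
        closure O ∩ {q : M | 0 ≤ ρ ^ 2 - ‖F q s‖ ^ 2 - 2 * n * (s - T₀)} := by
      ext q
      constructor
      · rintro ⟨h2, h3⟩
        exact ⟨subset_closure h2, h3⟩
      · rintro ⟨h2, h3⟩
        refine ⟨?_, h3⟩
        by_contra h4
        have h5 : q ∈ frontier K := by
          rw [← frontier_compl, ← hO, hOo.frontier_eq]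
          exact ⟨h2, h4⟩
        have h6 := htube q h5 s hs.1 (by have := hs.2; linarith)
        have h7 : 0 ≤ 2 * n * (s - T₀) := mul_nonneg (by positivity) (by linarith [hs.1])
        have h8 : 0 ≤ ρ ^ 2 - ‖F q s‖ ^ 2 - 2 * n * (s - T₀) := h3
        nlinarith
    rw [h1]
    refine (hcpt s ρ hs0).of_isClosed_subset (isClosed_closure.inter ?_) ?_
    · exact isClosed_le continuous_const
        ((continuous_const.sub ((hFt s hs0).norm.pow 2)).sub continuous_const)
    · rintro q ⟨-, h3⟩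
      have h7 : 0 ≤ 2 * n * (s - T₀) := mul_nonneg (by positivity) (by linarith [hs.1])
      have h8 : 0 ≤ ρ ^ 2 - ‖F q s‖ ^ 2 - 2 * n * (s - T₀) := h3
      show ‖F q s‖ ≤ ρ
      exact abs_le_of_sq_le_sq' (by nlinarith) hρ.le |>.2
  obtain ⟨c, χ, hPU⟩ := hV5 n M
  obtain ⟨C8, hC8, hV8'⟩ := hV8 n
  obtain ⟨C', hC', harea'⟩ := harea ρ
  obtain ⟨h10a, h10b⟩ := hV10 n N hn M F hF ρ T₀ hρ
  -- the functions in the charts
  set a : ℕ → EE n → ℝ → ℝ := fun i y r =>
    wN n F ρ T₀ ((chartAt (EE n) (c i)).symm y) r ^ 3 * sgm (loc (n := n) F (c i) r) y with ha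
  set b : ℕ → EE n → ℝ → ℝ := fun i y r =>
    hN n F ρ T₀ ((chartAt (EE n) (c i)).symm y) r * sgm (loc (n := n) F (c i) r) y with hb
  set X : ℕ → EE n → ℝ≥0∞ := fun i y => ENNReal.ofReal (χ i ((chartAt (EE n) (c i)).symm y)) with hX
  have hTm : ∀ i, MeasurableSet (Tn n (c i) O) := fun i => (tn_open (c i) hOo).measurableSet
  have hsymm : ∀ i, ContinuousOn (chartAt (EE n) (c i)).symm (Tn n (c i) O) := fun i =>
    (chartAt (EE n) (c i)).continuousOn_symm.mono fun y hy => hy.1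
  have hχc : ∀ i, ContinuousOn (fun y => χ i ((chartAt (EE n) (c i)).symm y)) (Tn n (c i) O) :=
    fun i => (hPU.smooth i).continuous.comp_continuousOn (hsymm i)
  have hXm : ∀ i, AEMeasurable (X i) (volume.restrict (Tn n (c i) O)) := fun i =>
    ((hχc i).aemeasurable (hTm i)).ennreal_ofReal
  have hbc : ∀ i, ContinuousOn (fun z : EE n × ℝ => b i z.1 z.2) (Tn n (c i) O ×ˢ Icc T₀ t) := by
    intro i
    refine (h10b (c i)).2.mono ?_
    rintro ⟨y, r⟩ ⟨hy, hr⟩
    exact ⟨hy.1, (lt_of_le_of_lt hr.2 ht0 : r < 0)⟩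
  -- the sum of the identities
  have hid : ∀ i, (∫⁻ y in Tn n (c i) O, X i y * ENNReal.ofReal (a i y t))
        + ∫⁻ r in Icc T₀ t, ∫⁻ y in Tn n (c i) O, X i y * ENNReal.ofReal (-b i y r)
      = ∫⁻ r in Icc T₀ t, ∫⁻ y in Tn n (c i) O, X i y * ENNReal.ofReal (b i y r) := by
    intro i
    refine hV9 n (Tn n (c i) O) (tn_open (c i) hOo) (X i) (hXm i) T₀ t ht1 (a i) (b i) ?_ (hbc i)
      ?_ ?_
    · intro y hy r hr
      exact (h10b (c i)).1 y hy.1 r (lt_of_le_of_lt hr.2 ht0)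
    · intro y hy
      have h1 : (chartAt (EE n) (c i)).symm y ∈ O := hy.2
      have h2 : ρ + 1 < ‖F ((chartAt (EE n) (c i)).symm y) T₀‖ := not_le.1 h1
      have h3 : wN n F ρ T₀ ((chartAt (EE n) (c i)).symm y) T₀ = 0 := by
        unfold wN
        rw [max_eq_left]
        rw [sub_self, mul_zero, sub_zero]
        nlinarith
      simp only [ha]
      rw [h3]
      ring
    · intro y _
      exact mul_nonneg (pow_nonneg (le_max_left _ _) 3) (Real.sqrt_nonneg _)
  have hJm : ∀ (i : ℕ) (s : ℝ → ℝ), Continuous s →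
      AEMeasurable (fun r => ∫⁻ y in Tn n (c i) O, X i y * ENNReal.ofReal (s (b i y r)))
        (volume.restrict (Icc T₀ t)) := by
    intro i s hs
    have h1 : AEMeasurable (fun z : ℝ × EE n => X i z.2 * ENNReal.ofReal (s (b i z.2 z.1)))
        ((volume.restrict (Icc T₀ t)).prod (volume.restrict (Tn n (c i) O))) := by
      rw [Measure.prod_restrict]
      have hms : MeasurableSet (Icc T₀ t ×ˢ Tn n (c i) O) := measurableSet_Icc.prod (hTm i)
      have h2 : ContinuousOn (fun z : ℝ × EE n => χ i ((chartAt (EE n) (c i)).symm z.2))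
          (Icc T₀ t ×ˢ Tn n (c i) O) :=
        (hχc i).comp continuousOn_snd fun z hz => hz.2
      have h3 : ContinuousOn (fun z : ℝ × EE n => s (b i z.2 z.1)) (Icc T₀ t ×ˢ Tn n (c i) O) := by
        refine hs.comp_continuousOn ?_
        exact (hbc i).comp (f := fun z : ℝ × EE n => (z.2, z.1)) (by fun_prop)
          fun z hz => ⟨hz.2, hz.1⟩
      exact ((h2.aemeasurable hms).ennreal_ofReal).mul ((h3.aemeasurable hms).ennreal_ofReal)
    exact h1.lintegral_prod_right'
  have hLp : ∀ r, Lam (n := n) F c χ r (indicator O fun q => ENNReal.ofReal (hN n F ρ T₀ q r)) =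
      ∑' i, ∫⁻ y in Tn n (c i) O, X i y * ENNReal.ofReal (b i y r) := fun r =>
    ni_lam F c χ r hOo (fun q => hN n F ρ T₀ q r)
  have hLm : ∀ r, Lam (n := n) F c χ r (indicator O fun q => ENNReal.ofReal (-hN n F ρ T₀ q r)) =
      ∑' i, ∫⁻ y in Tn n (c i) O, X i y * ENNReal.ofReal (-b i y r) := by
    intro r
    rw [ni_lam F c χ r hOo (fun q => -hN n F ρ T₀ q r)]
    simp only [hX, hb, neg_mul]
  have hsum : (∑' i, ∫⁻ y in Tn n (c i) O, X i y * ENNReal.ofReal (a i y t)) +
      ∫⁻ r in Icc T₀ t, Lam (n := n) F c χ r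
        (indicator O fun q => ENNReal.ofReal (-hN n F ρ T₀ q r)) =
      ∫⁻ r in Icc T₀ t, Lam (n := n) F c χ r
        (indicator O fun q => ENNReal.ofReal (hN n F ρ T₀ q r)) := by
    simp_rw [hLp, hLm]
    rw [lintegral_tsum fun i => hJm i (fun x => -x) continuous_neg,
      lintegral_tsum fun i => hJm i (fun x => x) continuous_id, ← ENNReal.tsum_add]
    exact tsum_congr hid
  have hle : ∫⁻ r in Icc T₀ t, Lam (n := n) F c χ r
        (indicator O fun q => ENNReal.ofReal (hN n F ρ T₀ q r)) ≤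
      ∫⁻ r in Icc T₀ t, Lam (n := n) F c χ r
        (indicator O fun q => ENNReal.ofReal (-hN n F ρ T₀ q r)) := by
    refine lintegral_mono_ae ((ae_restrict_iff' measurableSet_Icc).2 (Eventually.of_forall ?_))
    intro r hr
    exact hV11 n N hn M F hF c χ hPU O hOo r T₀ ρ (hcs r hr).1 (hcs r hr).2
  have hfin : ∫⁻ r in Icc T₀ t, Lam (n := n) F c χ r
        (indicator O fun q => ENNReal.ofReal (hN n F ρ T₀ q r)) ≠ ⊤ := by
    have h1 : ∀ r ∈ Icc T₀ t, Lam (n := n) F c χ r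
        (indicator O fun q => ENNReal.ofReal (hN n F ρ T₀ q r)) ≤
        ENNReal.ofReal (9 * ρ ^ 4) * (C8 * C') := by
      intro r hr
      have hr0 := (hcs r hr).1
      have h2 : Lam (n := n) F c χ r (indicator O fun q => ENNReal.ofReal (hN n F ρ T₀ q r)) ≤
          Lam (n := n) F c χ r (fun q => ENNReal.ofReal (9 * ρ ^ 4) *
            indicator {q : M | ‖F q r‖ ≤ ρ} 1 q) := by
        refine ni_lam_mono F c χ r fun q => ?_
        obtain ⟨h3, h4⟩ := h10a q r hr0 hr.1
        by_cases h5 : ‖F q r‖ ≤ ρ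
        · have h6 : q ∈ {q : M | ‖F q r‖ ≤ ρ} := h5
          rw [indicator_of_mem h6, Pi.one_apply, mul_one]
          refine (indicator_le_self' (fun _ _ => zero_le) q).trans ?_
          exact ENNReal.ofReal_le_ofReal h3
        · have h6 : hN n F ρ T₀ q r = 0 := h4 (not_le.1 h5)
          refine (indicator_le_self' (fun _ _ => zero_le) q).trans ?_
          rw [h6, ENNReal.ofReal_zero]
          exact zero_le
      refine h2.trans ?_
      rw [ni_lam_mul F c χ r ENNReal.ofReal_ne_top]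
      refine mul_le_mul_right ?_ _
      refine (hV8' N M F hF r ρ hr0 (hcpt r ρ hr0) c χ hPU).trans ?_
      exact mul_le_mul_right (harea' r hr0) _
    have h2 : ∫⁻ r in Icc T₀ t, Lam (n := n) F c χ r
        (indicator O fun q => ENNReal.ofReal (hN n F ρ T₀ q r)) ≤
        ∫⁻ _r in Icc T₀ t, ENNReal.ofReal (9 * ρ ^ 4) * (C8 * C') :=
      lintegral_mono_ae ((ae_restrict_iff' measurableSet_Icc).2 (Eventually.of_forall h1))
    refine ne_top_of_le_ne_top ?_ h2
    rw [lintegral_const, Measure.restrict_apply_univ, Real.volume_Icc]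
    exact ENNReal.mul_ne_top (ENNReal.mul_ne_top ENNReal.ofReal_ne_top (ENNReal.mul_ne_top hC8 hC'))
      ENNReal.ofReal_ne_top
  -- the mass vanishes
  have hfin' : ∫⁻ r in Icc T₀ t, Lam (n := n) F c χ r
        (indicator O fun q => ENNReal.ofReal (-hN n F ρ T₀ q r)) ≠ ⊤ := by
    refine ne_top_of_le_ne_top hfin ?_
    rw [← hsum]
    exact le_add_self
  have hzero : ∑' i, ∫⁻ y in Tn n (c i) O, X i y * ENNReal.ofReal (a i y t) = 0 := by
    have h1 := hsum.trans_le hle
    have h2 : (∑' i, ∫⁻ y in Tn n (c i) O, X i y * ENNReal.ofReal (a i y t)) +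
      ∫⁻ r in Icc T₀ t, Lam (n := n) F c χ r
        (indicator O fun q => ENNReal.ofReal (-hN n F ρ T₀ q r)) ≤ 0 +
      ∫⁻ r in Icc T₀ t, Lam (n := n) F c χ r
        (indicator O fun q => ENNReal.ofReal (-hN n F ρ T₀ q r)) := by
      rw [zero_add]
      exact h1
    exact le_antisymm ((ENNReal.add_le_add_iff_right hfin').1 h2) zero_le
  rw [ENNReal.tsum_eq_zero] at hzero
  -- a partition function which is positive at `q₀`
  obtain ⟨i, hi⟩ : ∃ i, 0 < χ i q₀ := by
    by_contra hcon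
    push Not at hcon
    have h1 : ∀ i, χ i q₀ = 0 := fun i => le_antisymm (hcon i) (hPU.nonneg i q₀)
    have h2 := hPU.sum q₀
    simp only [h1] at h2
    have h3 := h2.unique hasSum_zero
    norm_num at h3
  have hsrc : q₀ ∈ (chartAt (EE n) (c i)).source :=
    hPU.sub i (subset_tsupport _ hi.ne')
  set y₀ : EE n := chartAt (EE n) (c i) q₀ with hy₀
  have hy₀q : (chartAt (EE n) (c i)).symm y₀ = q₀ := (chartAt (EE n) (c i)).left_inv hsrc
  have hy₀T : y₀ ∈ Tn n (c i) O := by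
    refine ⟨(chartAt (EE n) (c i)).map_source hsrc, ?_⟩
    show (chartAt (EE n) (c i)).symm y₀ ∈ O
    rw [hy₀q]
    exact hq₀K
  -- continuity of the area density
  have hsg : ∀ y ∈ (chartAt (EE n) (c i)).target, 0 < sgm (loc (n := n) F (c i) t) y ∧
      ContinuousAt (fun y => sgm (loc (n := n) F (c i) t) y) y := by
    intro y hy
    have h1 : ContDiffAt ℝ ∞ (fun z : EE n × ℝ => F ((chartAt (EE n) (c i)).symm z.1) z.2) (y, t) :=
      (hI2 n N M F hF (c i)).contDiffAt
        (((chartAt (EE n) (c i)).open_target.prod isOpen_Iio).mem_nhds ⟨hy, ht0⟩)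
    have h2 := (hI3 n N M F hF (c i) ((chartAt (EE n) (c i)).symm y) t ht0
      ((chartAt (EE n) (c i)).map_target hy)).1
    rw [(chartAt (EE n) (c i)).right_inv hy] at h2
    obtain ⟨h3, h4, -⟩ := hV1 n N _ (y, t) h1 h2
    refine ⟨h3, ?_⟩
    have h5 := h4.continuousAt
    exact ContinuousAt.comp (f := fun y : EE n => (y, t)) (x := y) h5
      (Continuous.prodMk continuous_id continuous_const).continuousAt
  have hac : ContinuousOn (fun y => χ i ((chartAt (EE n) (c i)).symm y) * a i y t)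
      (Tn n (c i) O) := by
    refine (hχc i).mul ?_
    refine ContinuousOn.mul ?_ fun y hy => (hsg y hy.1).2.continuousWithinAt
    have h1 : Continuous (fun q : M => wN n F ρ T₀ q t) := by
      unfold wN
      exact continuous_const.max
        ((continuous_const.sub ((hFt t ht0).norm.pow 2)).sub continuous_const)
    exact (h1.comp_continuousOn (hsymm i)).pow 3
  have hnn : ∀ y, 0 ≤ a i y t := fun y =>
    mul_nonneg (pow_nonneg (le_max_left _ _) 3) (Real.sqrt_nonneg _)
  have hae : (fun y => χ i ((chartAt (EE n) (c i)).symm y) * a i y t)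
      =ᵐ[volume.restrict (Tn n (c i) O)] fun _ => (0 : ℝ) := by
    have h1 : ∫⁻ y in Tn n (c i) O,
        ENNReal.ofReal (χ i ((chartAt (EE n) (c i)).symm y) * a i y t) = 0 := by
      rw [← hzero i]
      refine lintegral_congr fun y => ?_
      rw [ENNReal.ofReal_mul (hPU.nonneg i _)]
    rw [lintegral_eq_zero_iff' (hac.aemeasurable (hTm i)).ennreal_ofReal] at h1
    filter_upwards [h1] with y hy
    have h2 : χ i ((chartAt (EE n) (c i)).symm y) * a i y t ≤ 0 := by
      rw [← ENNReal.ofReal_eq_zero]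
      exact hy
    exact le_antisymm h2 (mul_nonneg (hPU.nonneg i _) (hnn y))
  have heq := Measure.eqOn_open_of_ae_eq hae (tn_open (c i) hOo) hac continuousOn_const hy₀T
  simp only [ha] at heq
  rw [hy₀q] at heq
  have hw : 0 < wN n F ρ T₀ q₀ t := by
    unfold wN
    refine lt_max_of_lt_right ?_
    have h1 : ‖F q₀ t‖ ≤ R' := hq₀.trans hRR'
    have h2 : 2 * n * (t - T₀) ≤ 1 := by
      refine le_trans ?_ hη2
      exact mul_le_mul_of_nonneg_left (by linarith) (by positivity)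
    have h3 : ‖F q₀ t‖ ^ 2 ≤ R' ^ 2 := pow_le_pow_left₀ (norm_nonneg _) h1 2
    nlinarith
  have hs := (hsg y₀ hy₀T.1).1
  have : 0 < χ i q₀ * (wN n F ρ T₀ q₀ t ^ 3 * sgm (loc (n := n) F (c i) t) y₀) := by positivity
  linarith

end Helper61.PI
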